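import Pool.Agent.Helper92.BO.GoalsC

/-! # Project BO (MP_481f43_lc), packet BO-MSP: separated parts -/

namespace Pool.Agent.Helper81.BO

open Finset Pool.Agent.Helper92.BO

theorem sum_alt {S : Finset ℕ} (h : S.Nonempty) :
    ∑ T ∈ S.powerset, (-1 : ℝ) ^ (S.card - T.card) = 0 := by
  have h1 := Finset.sum_powerset_neg_one_pow_card_of_nonempty h
  have h2 : ∑ T ∈ S.powerset, (-1 : ℝ) ^ T.card = 0 := by
    have := congrArg (Int.cast : ℤ → ℝ) h1
    push_cast at this
    exact this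
  calc ∑ T ∈ S.powerset, (-1 : ℝ) ^ (S.card - T.card) =
      ∑ T ∈ S.powerset, (-1 : ℝ) ^ S.card * (-1 : ℝ) ^ T.card := by
        refine sum_congr rfl fun T hT => ?_
        have hc := card_le_card (mem_powerset.1 hT)
        have e : (-1 : ℝ) ^ S.card = (-1) ^ (S.card - T.card) * (-1) ^ T.card := by
          rw [← pow_add, Nat.sub_add_cancel hc]
        rw [e, mul_assoc, ← mul_pow]
        norm_num
    _ = 0 := by rw [← mul_sum, h2, mul_zero]

theorem sum_split {β : Type*} [AddCommMonoid β] {A B : Finset ℕ} (hd : Disjoint A B)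
    (f : Finset ℕ → β) :
    ∑ T ∈ (A ∪ B).powerset, f T = ∑ I ∈ A.powerset, ∑ J ∈ B.powerset, f (I ∪ J) := by
  rw [← sum_product']
  symm
  refine sum_nbij' (fun q => q.1 ∪ q.2) (fun T => (T ∩ A, T ∩ B)) ?_ ?_ ?_ ?_ ?_
  · intro q hq
    rw [mem_product, mem_powerset, mem_powerset] at hq
    exact mem_powerset.2 (union_subset_union hq.1 hq.2)
  · intro T _
    rw [mem_product]
    exact ⟨mem_powerset.2 inter_subset_right, mem_powerset.2 inter_subset_right⟩
  · intro q hq
    rw [mem_product, mem_powerset, mem_powerset] at hq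
    refine Prod.ext ?_ ?_
    · show (q.1 ∪ q.2) ∩ A = q.1
      rw [union_inter_distrib_right, inter_eq_left.2 hq.1,
        disjoint_iff_inter_eq_empty.1 (hd.symm.mono_left hq.2), union_empty]
    · show (q.1 ∪ q.2) ∩ B = q.2
      rw [union_inter_distrib_right, inter_eq_left.2 hq.2,
        disjoint_iff_inter_eq_empty.1 (hd.mono_left hq.1), empty_union]
  · intro T hT
    show T ∩ A ∪ T ∩ B = T
    rw [← inter_union_distrib_left, inter_eq_left.2 (mem_powerset.1 hT)]
  · intro q _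
    rfl

theorem mk_yc (p : Finset ℕ → ℝ) (T : Finset ℕ) : PowerSeries.mk (yc p T) =
    ∑ I ∈ T.powerset, PowerSeries.C (p I) * PowerSeries.X ^ I.card := by
  ext n
  rw [PowerSeries.coeff_mk, map_sum]
  simp only [PowerSeries.coeff_C_mul_X_pow]
  rw [← sum_filter, yc]
  refine sum_congr ?_ fun _ _ => rfl
  ext I
  rw [mem_powersetCard, mem_filter, mem_powerset]
  exact ⟨fun h => ⟨h.1, h.2.symm⟩, fun h => ⟨h.1, h.2.symm⟩⟩

theorem mk_yc_union (p : Finset ℕ → ℝ) {A B : Finset ℕ} (hd : Disjoint A B)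
    (h : ∀ I J, I ⊆ A → J ⊆ B → p (I ∪ J) = p I * p J) :
    PowerSeries.mk (yc p (A ∪ B)) = PowerSeries.mk (yc p A) * PowerSeries.mk (yc p B) := by
  rw [mk_yc, mk_yc, mk_yc, sum_split hd, sum_mul_sum]
  refine sum_congr rfl fun I hI => sum_congr rfl fun J hJ => ?_
  rw [mem_powerset] at hI hJ
  rw [h I J hI hJ, card_union_of_disjoint (hd.mono hI hJ), map_mul, pow_add]
  ring

theorem ns_eq {y s : ℕ → ℝ} (h : IsNs y s) :
    PowerSeries.X * PowerSeries.derivative ℝ (PowerSeries.mk y) =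
      PowerSeries.mk y * PowerSeries.mk s := by
  ext n
  rw [PowerSeries.coeff_mul n (PowerSeries.mk y) (PowerSeries.mk s),
    Finset.Nat.sum_antidiagonal_eq_sum_range_succ_mk]
  simp only [PowerSeries.coeff_mk]
  rw [← h.2 n]
  rcases n with _ | n
  · simp
  · rw [PowerSeries.coeff_succ_X_mul, PowerSeries.coeff_derivative, PowerSeries.coeff_mk]
    push_cast
    ring

theorem ns_add {p : Finset ℕ → ℝ} {s : Finset ℕ → ℕ → ℝ} {A B : Finset ℕ} (h0 : p ∅ = 1)
    (hs : ∀ T, IsNs (yc p T) (s T)) (hd : Disjoint A B)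
    (h : ∀ I J, I ⊆ A → J ⊆ B → p (I ∪ J) = p I * p J) (j : ℕ) :
    s (A ∪ B) j = s A j + s B j := by
  have e1 := ns_eq (hs (A ∪ B))
  have e2 := ns_eq (hs A)
  have e3 := ns_eq (hs B)
  have hne : PowerSeries.mk (yc p (A ∪ B)) ≠ 0 := by
    intro hz
    have := congrArg (PowerSeries.coeff 0) hz
    rw [PowerSeries.coeff_mk] at this
    simp [yc, h0] at this
  have e4 : PowerSeries.mk (yc p (A ∪ B)) * PowerSeries.mk (s (A ∪ B)) =
      PowerSeries.mk (yc p (A ∪ B)) * (PowerSeries.mk (s A) + PowerSeries.mk (s B)) := by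
    rw [← e1, mk_yc_union p hd h, Derivation.leibniz]
    simp only [smul_eq_mul]
    linear_combination PowerSeries.mk (yc p B) * e2 + PowerSeries.mk (yc p A) * e3
  have e5 := mul_left_cancel₀ hne e4
  have := congrArg (PowerSeries.coeff j) e5
  rwa [map_add, PowerSeries.coeff_mk, PowerSeries.coeff_mk, PowerSeries.coeff_mk] at this

theorem msp : MspStmt := by
  intro p s S1 S2 h0 hs hd hS1 hS2 h j
  rw [sum_split hd]
  have e : ∀ I ∈ S1.powerset, ∀ J ∈ S2.powerset,
      (-1 : ℝ) ^ ((S1 ∪ S2).card - (I ∪ J).card) * s (I ∪ J) j =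
      ((-1 : ℝ) ^ (S1.card - I.card) * s I j) * (-1 : ℝ) ^ (S2.card - J.card) +
      (-1 : ℝ) ^ (S1.card - I.card) * ((-1 : ℝ) ^ (S2.card - J.card) * s J j) := by
    intro I hI J hJ
    rw [mem_powerset] at hI hJ
    have c1 := card_le_card hI
    have c2 := card_le_card hJ
    rw [card_union_of_disjoint hd, card_union_of_disjoint (hd.mono hI hJ),
      show S1.card + S2.card - (I.card + J.card) = (S1.card - I.card) + (S2.card - J.card) by
        omega, pow_add, ns_add h0 hs (hd.mono hI hJ)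
        (fun I' J' hI' hJ' => h I' J' (hI'.trans hI) (hJ'.trans hJ))]
    ring
  rw [sum_congr rfl fun I hI => sum_congr rfl fun J hJ => e I hI J hJ]
  simp only [sum_add_distrib]
  have e1 : ∑ I ∈ S1.powerset, ∑ J ∈ S2.powerset,
      ((-1 : ℝ) ^ (S1.card - I.card) * s I j) * (-1 : ℝ) ^ (S2.card - J.card) = 0 := by
    rw [← sum_mul_sum, sum_alt hS2, mul_zero]
  have e2 : ∑ I ∈ S1.powerset, ∑ J ∈ S2.powerset,
      (-1 : ℝ) ^ (S1.card - I.card) * ((-1 : ℝ) ^ (S2.card - J.card) * s J j) = 0 := by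
    rw [← sum_mul_sum, sum_alt hS1, zero_mul]
  rw [e1, e2, add_zero]

end Pool.Agent.Helper81.BO
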