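import Pool.Agent.Helper92.BO.GoalsF

/-!
Packet 8652 BO-PTL: the list of all sublists is computed in polynomial time if it is short.
-/

namespace Pool.Agent.Helper81.BO

open Pool.Agent.Helper81.CC
open Pool.Agent.Helper92.BO

lemma subL_concat (l : List ℕ) (x : ℕ) :
    subL (l ++ [x]) = subL l ++ (subL l).map fun I => I ++ [x] := by
  simp [subL, List.foldl_append]

lemma length_subL (l : List ℕ) : (subL l).length = 2 ^ l.length := by
  induction l using List.reverseRecOn with
  | nil => rfl
  | append_singleton l x ih =>
    rw [subL_concat, List.length_append, List.length_map, ih, List.length_append, pow_add]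
    simp
    ring

lemma sz_mem_subL (l : List ℕ) : ∀ I ∈ subL l, sz I ≤ sz l := by
  induction l using List.reverseRecOn with
  | nil =>
    intro I hI
    have : I = [] := by simpa [subL] using hI
    rw [this]
  | append_singleton l x ih =>
    intro I hI
    rw [subL_concat, List.mem_append, List.mem_map] at hI
    have h1 := sz_append l [x]
    rcases hI with hI | ⟨J, hJ, rfl⟩
    · have := ih I hI
      have h2 := sz_pos [x]
      omega
    · have := ih J hJ
      have h2 := sz_append J [x]
      omega

lemma sz_le_length_mul {β : Type} [ToData β] {K : ℕ} : ∀ l : List β, (∀ b ∈ l, sz b ≤ K) →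
    sz l ≤ 1 + l.length * (K + 1)
  | [], _ => by simp
  | b :: l, h => by
    have h1 := sz_le_length_mul l fun c hc => h c (List.mem_cons_of_mem _ hc)
    have h2 := h b List.mem_cons_self
    have h3 : (b :: l).length * (K + 1) = l.length * (K + 1) + (K + 1) := by
      rw [List.length_cons]
      ring
    rw [sz_cons]
    omega

theorem ptl : PtlStmt := by
  intro α _ S m N hS hm hN hl h2
  unfold subL
  refine PolyTime.foldl_bd (step := fun _ (acc : List (List ℕ)) (x : ℕ) =>
    acc ++ acc.map fun I => I ++ [x]) hS (by fun_prop) (by fun_prop)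
    (B := fun a => 1 + N a * (sz (S a) + 1))
    ((PBd.const 1).add ((PBd.nat hN).mul (hS.bd.add (PBd.const 1)))) ?_
  intro a l' hl'
  change sz (subL l') ≤ _
  have h3 : sz l' ≤ sz (S a) := by
    obtain ⟨t, ht⟩ := hl'
    have h4 := sz_append l' t
    have h5 := sz_pos t
    rw [ht] at h4
    omega
  refine (sz_le_length_mul (K := sz (S a)) (subL l')
    fun I hI => (sz_mem_subL l' I hI).trans h3).trans ?_
  have h4 : (subL l').length ≤ N a := by
    rw [length_subL]
    exact (Nat.pow_le_pow_right (by norm_num) (hl'.length_le.trans (hl a))).trans (h2 a)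
  exact Nat.add_le_add_left (Nat.mul_le_mul_right _ h4) _

end Pool.Agent.Helper81.BO
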